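import Pool.Agent.H84.Ku

namespace Pool.Agent.Results.MP_b008e1_lc.NoKurepa

open Pool.Agent.H84.KuDefs

theorem result (ch : Cardinal.continuum.{0} = Cardinal.aleph 1) (kh : KH) :
    ∃ D E : Set (W → W), Perfect1 D ∧ @IsClosed _ bdd E ∧
      (∃ f : (W → W) → W → W, @Continuous _ _ bdd bdd f ∧ f '' D = E) ∧
      ∀ X ⊆ E, Few X → (∃ x ∈ E \ X, ¬ Wins E x) ∧ ¬ Perfect1 (E \ X) :=
  Pool.Agent.H84.Ku.image_perfect ch kh

end Pool.Agent.Results.MP_b008e1_lc.NoKurepa
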